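import Mathlib
import Pool.Agent.N261.JS.Ana
import Pool.Agent.N261.JS.Fro
import Pool.Agent.N261.JS.Ric
import Pool.Agent.N261.JS.Pex
import Pool.Agent.N261.JS.CmpRot
import Pool.Agent.N261.JS.Sgn

set_option autoImplicit false

/-!
# The parabolic-monodromy surfaces `Σ_±` of the Josephson model are the smallest analytic sets
containing the boundary families `𝓛_±`
-/

open Complex Set

namespace Pool.Agent.Results.MP_62978e_an.SmallestAnalyticSurfaces

open Pool.Agent.N261.JS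

/-- For each sign, `Σ_±` is the smallest complex analytic subset of `U` which contains all the
boundary points of the phase-lock areas (all `ω > 0`) at which the time-`2π` map fixes `± π/2`;
consequently `Σ_±` is the union of the smallest analytic sets containing the points of the even
and of the odd family. -/
theorem result (θ : ℝ) (e : ℂ)
    (h : (θ = Real.pi / 2 ∧ e = I) ∨ (θ = -(Real.pi / 2) ∧ e = -I)) :
    IsLeast {Z | IsAna Z ∧ Bdry (fun _ => True) θ ⊆ Z} (Sig e) ∧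
    ∀ Ze Zo : Set (ℂ × ℂ × ℂ),
      IsLeast {Z | IsAna Z ∧ Bdry (fun s => Even s) θ ⊆ Z} Ze →
      IsLeast {Z | IsAna Z ∧ Bdry (fun s => Odd s) θ ⊆ Z} Zo →
      Ze ∪ Zo = Sig e := by
  have hθ : θ = Real.pi / 2 ∨ θ = -(Real.pi / 2) := h.imp And.left And.left
  have he : e = exp (θ * I) := by
    rcases h with ⟨h1, h2⟩ | ⟨h1, h2⟩
    · rw [h1, h2]
      push_cast
      rw [Complex.exp_pi_div_two_mul_I]
    · rw [h1, h2]
      push_cast
      rw [neg_mul, Complex.exp_neg, Complex.exp_pi_div_two_mul_I, Complex.inv_I]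
  have he2 : e ^ 2 = -1 := by
    rcases h with ⟨-, h2⟩ | ⟨-, h2⟩ <;> rw [h2]
    · exact I_sq
    · rw [neg_sq]; exact I_sq
  have hric : S_RIC := t_RIC t_EX
  have hfro : S_FRO := t_FRO t_PEX t_CMP (t_ROT t_PEX) (t_SGN t_EX t_PEX)
  have hsigana : IsAna (Sig e) := sig_ana hric he2
  have hbd : ∀ P : ℤ → Prop, Bdry P θ ⊆ Sig e := by
    intro P
    rw [he]
    exact bdry_sub P θ
  have hleast := fun {Z : Set (ℂ × ℂ × ℂ)} (hZ : IsAna Z) (hs : Bdry (fun _ => True) θ ⊆ Z) =>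
    least hric hfro hθ he he2 hZ hs
  refine ⟨⟨⟨hsigana, hbd _⟩, fun Z hZ => hleast hZ.1 hZ.2⟩, ?_⟩
  intro Ze Zo hZe hZo
  apply Subset.antisymm
  · exact union_subset (hZe.2 ⟨hsigana, hbd _⟩) (hZo.2 ⟨hsigana, hbd _⟩)
  · apply hleast (union_ana hZe.1.1 hZo.1.1)
    rintro q ⟨B, A, r, hq, hr, ⟨s, -, hs⟩, hφ⟩
    rcases Int.even_or_odd s with hev | hodd
    · exact Or.inl (hZe.1.2 ⟨B, A, r, hq, hr, ⟨s, hev, hs⟩, hφ⟩)
    · exact Or.inr (hZo.1.2 ⟨B, A, r, hq, hr, ⟨s, hodd, hs⟩, hφ⟩)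

end Pool.Agent.Results.MP_62978e_an.SmallestAnalyticSurfaces
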